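import Pool.Agent.Run7.h266.AZ.Idx
import Pool.Agent.TH107.AT.Fi

set_option autoImplicit false

noncomputable section

namespace Pool.Agent.Results.MP_1dd539_al.FewTermsInSmallIndex

/-- The kernel of right multiplication by the matrix `A` over the complex group ring, with rows
indexed by `K` and columns by `L`, on row vectors over `l2(G)`: all square-summable `x` with
`x A = 0`. -/
def kernel {G : Type} [Group G] {K L : Type} [Fintype K] (A : K → L → (G →₀ ℂ)) :
    Set (lp (fun _ : K × G => ℂ) 2) :=
  {x | ∀ (j : L) (g : G), ∑ k : K, ∑ h ∈ (A k j).support, x (k, g * h⁻¹) * A k j h = 0}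

open Classical in
/-- The von Neumann dimension of that kernel: the sum over `i` of one minus the square of the
distance from the basis vector at `(i, 1)` to the kernel, that is, the sum of the squared lengths
of the projections of these vectors to the kernel. -/
def kerDim {G : Type} [Group G] {K L : Type} [Fintype K] (A : K → L → (G →₀ ℂ)) : ℝ :=
  ∑ i : K, (1 - Metric.infDist
    (lp.single (E := fun _ : K × G => ℂ) 2 (i, (1 : G)) (1 : ℂ)) (kernel A) ^ 2)

/-- The Atiyah conjecture for a torsion-free group `H`, with complex coefficients: the kernels of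
all matrices over the group ring have integral von Neumann dimension. -/
def Atiyah (H : Type) [Group H] : Prop :=
  ∀ (K L : Type) [Fintype K] [Fintype L] (B : K → L → (H →₀ ℂ)), ∃ z : ℤ, kerDim B = z

open Classical in
/-- The set of all group elements which occur in the members of a finite family. -/
def occur {G : Type} {k : ℕ} (C : Fin k → (G →₀ ℂ)) : Finset G :=
  Finset.univ.biUnion (fun a => (C a).support)

open Classical in
/-- The number of elements `x` of the finite set `S` such that `u x` is in `S`. -/
def rep {G : Type} [Group G] (S : Finset G) (u : G) : ℕ := (S.filter (fun x => u * x ∈ S)).card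

section bridge

open Pool.Agent.H80R2.BC (GMat vdim kerA act)

/-- change of convention -/
def cvG {G : Type} [Group G] {K L : Type} (A : K → L → (G →₀ ℂ)) : GMat L K G :=
  fun j i => (A i j).mapDomain (fun g => g⁻¹)

theorem kernel_eq {G : Type} [Group G] {K L : Type} [Fintype K] (A : K → L → (G →₀ ℂ)) :
    kernel A = (kerA (cvG A) : Set (lp (fun _ : K × G => ℂ) 2)) := by
  ext x
  change (∀ (j : L) (g : G), _ = _) ↔ (∀ (j : L) (g : G), act (cvG A) x j g = 0)
  refine forall_congr' fun j => forall_congr' fun g => ?_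
  have : act (cvG A) x j g = ∑ i : K, ∑ h ∈ (A i j).support, x (i, g * h⁻¹) * A i j h := by
    unfold act cvG
    refine Finset.sum_congr rfl fun i _ => ?_
    rw [Finsupp.sum_mapDomain_index, Finsupp.sum]
    · refine Finset.sum_congr rfl fun h _ => ?_
      ring
    · intro b; simp
    · intro b c e; ring
  rw [this]

theorem kerDim_eq {G : Type} [Group G] {K L : Type} [Fintype K] (A : K → L → (G →₀ ℂ)) :
    kerDim A = vdim (kerA (cvG A)) := by
  unfold kerDim vdim
  rw [kernel_eq]
  rfl

theorem cvG_cvG {G : Type} [Group G] {K L : Type} (B : GMat L K G) :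
    cvG (fun i j => (B j i).mapDomain (fun g => g⁻¹)) = B := by
  funext j i
  unfold cvG
  rw [← Finsupp.mapDomain_comp]
  have : (fun g : G => g⁻¹) ∘ (fun g : G => g⁻¹) = id := by
    funext g
    simp
  rw [this, Finsupp.mapDomain_id]

/-- The dimensions over a group are multiples of the inverse of the index. -/
theorem index_mul {G : Type} [Group G] (H : Subgroup G) [H.FiniteIndex] (hH : Atiyah H)
    {K L : Type} [Fintype K] [Fintype L] (A : K → L → (G →₀ ℂ)) :
    ∃ z : ℤ, (H.index : ℝ) * kerDim A = z := by
  classical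
  have hfin : Finite (G ⧸ H) := Subgroup.finite_quotient_of_finiteIndex
  have : Fintype (G ⧸ H) := Fintype.ofFinite _
  obtain ⟨z, hz⟩ := hH (K × (G ⧸ H)) (L × (G ⧸ H))
    (fun i j => (Pool.Agent.TH107.AT.res H (cvG A) j i).mapDomain (fun g => g⁻¹))
  refine ⟨z, ?_⟩
  rw [← hz, kerDim_eq, kerDim_eq, cvG_cvG, Pool.Agent.TH107.AT.vdim_res, Subgroup.index,
    Nat.card_eq_fintype_card]

theorem single_inst {G : Type} [Group G] {K : Type} (d1 d2 : DecidableEq (K × G)) (i : K) :
    @lp.single (K × G) (fun _ => ℂ) _ d1 2 (i, (1 : G)) (1 : ℂ)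
      = @lp.single (K × G) (fun _ => ℂ) _ d2 2 (i, (1 : G)) (1 : ℂ) := by
  rw [Subsingleton.elim d1 d2]

theorem rank_eq {G : Type} [Group G] {K L : Type} [Fintype K] [Fintype L] [DecidableEq K]
    [DecidableEq L] (A : K → L → (G →₀ ℂ)) :
    Run7.h266.AZ.rkM A = Fintype.card K - kerDim A := by
  have h : kerDim A = Pool.Agent.W649.ZL.kerDimM A := by
    unfold kerDim Pool.Agent.W649.ZL.kerDimM
    refine Finset.sum_congr rfl fun i _ => ?_
    exact congrArg (fun v => 1 - Metric.infDist v (kernel A) ^ 2) (single_inst _ _ i)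
  rw [Run7.h266.AZ.rkM_eq, ← h]

end bridge

/-- **Few terms in overgroups of small index.** Let `G` be a group and let `H` be a subgroup of
finite index `κ` for which the kernels of all matrices over the complex group ring have integral
von Neumann dimension. Let `A` be a matrix over the complex group ring of `G`, one row of which has
`k ≥ 1` linearly independent (over `ℂ`) entries, and let `n` be the number of group elements which
occur in these entries.

1. If each `u ≠ 1` in `G` is the quotient of at most `m` pairs of these group elements and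
   `κ (n - k) m < n k + (n - k) m`, then the rank of `A` is at least one.
2. If `G` is torsion-free and `κ (n - 1) (n - k) < n ^ 2`, then the rank of `A` is at least one.
3. If the index is two, then the kernel of `α` has dimension zero for each `α ≠ 0` in the complex
   group ring whose support is a Sidon set (each `u ≠ 1` is at most once a quotient), and, if `G` is
   torsion-free, for each `α ≠ 0` with at most three terms. -/
theorem result {G : Type} [Group G] (H : Subgroup G) [H.FiniteIndex] (hH : Atiyah H) :
    (∀ {K L : Type} [Fintype K] [Fintype L] (A : K → L → (G →₀ ℂ)) (i : K) (k n m : ℕ)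
      (c : Fin k → L), 0 < k → LinearIndependent ℂ (fun a => A i (c a)) →
      n = (occur (fun a => A i (c a))).card →
      (∀ u : G, u ≠ 1 → rep (occur (fun a => A i (c a))) u ≤ m) →
      H.index * ((n - k) * m) < n * k + (n - k) * m → kerDim A ≤ Fintype.card K - 1) ∧
    ((∀ g : G, g ≠ 1 → ¬ IsOfFinOrder g) →
      ∀ {K L : Type} [Fintype K] [Fintype L] (A : K → L → (G →₀ ℂ)) (i : K) (k n : ℕ)
      (c : Fin k → L), 0 < k → LinearIndependent ℂ (fun a => A i (c a)) →
      n = (occur (fun a => A i (c a))).card →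
      H.index * ((n - 1) * (n - k)) < n ^ 2 → kerDim A ≤ Fintype.card K - 1) ∧
    (H.index = 2 → ∀ α : G →₀ ℂ, α ≠ 0 →
      ((∀ u : G, u ≠ 1 → rep α.support u ≤ 1) ∨
        ((∀ g : G, g ≠ 1 → ¬ IsOfFinOrder g) ∧ α.support.card ≤ 3)) →
      kerDim (fun _ _ : Unit => α) = 0) := by
  classical
  -- a rank which is less than one is at most `1 - 1 / κ`
  have step : ∀ {K L : Type} [Fintype K] [Fintype L] (A : K → L → (G →₀ ℂ)),
      ¬ kerDim A ≤ Fintype.card K - 1 →
      1 ≤ (H.index : ℝ) * (1 - (Fintype.card K - kerDim A)) := by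
    intro K L _ _ A hA
    obtain ⟨z, hz⟩ := index_mul H hH A
    have hκ : 0 < H.index := Nat.pos_of_ne_zero Subgroup.FiniteIndex.index_ne_zero
    have hκR : (0 : ℝ) < H.index := by exact_mod_cast hκ
    push Not at hA
    have h1 : (0 : ℝ) < (H.index : ℝ) * (1 - (Fintype.card K - kerDim A)) :=
      mul_pos hκR (by linarith)
    have h2 : (H.index : ℝ) * (1 - (Fintype.card K - kerDim A))
        = ((H.index : ℤ) - H.index * Fintype.card K + z : ℤ) := by
      push_cast
      rw [← hz]
      ring
    rw [h2] at h1 ⊢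
    have h3 : 0 < ((H.index : ℤ) - H.index * Fintype.card K + z : ℤ) := by exact_mod_cast h1
    exact_mod_cast h3
  have hquo : ∀ (S : Finset G) (u : G), u ∈ Run7.h266.AZ.quo S → u ≠ 1 :=
    fun S u hu => Run7.h266.AZ.quo_ne_one S u hu
  have hrep : ∀ (S : Finset G) (u : G), Run7.h266.AZ.rep S u = rep S u := by
    intro S u
    unfold Run7.h266.AZ.rep rep
    congr
  have key1 : ∀ {K L : Type} [Fintype K] [Fintype L] (A : K → L → (G →₀ ℂ)) (i : K) (k : ℕ)
      (c : Fin k → L), 0 < k → LinearIndependent ℂ (fun a => A i (c a)) → ∀ (S : Finset G),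
      (∀ a, (A i (c a)).support ⊆ S) → ∀ (m : ℕ), (∀ u : G, u ≠ 1 → rep S u ≤ m) →
      H.index * ((S.card - k) * m) < S.card * k + (S.card - k) * m →
      kerDim A ≤ Fintype.card K - 1 := by
    intro K L _ _ A i k c hk hli S hS m hm hlt
    by_contra hcon
    have h1 := step A hcon
    have h2 := Run7.h266.AZ.row_m A i k hk c hli S hS m (fun u hu => by
      rw [hrep]
      exact hm u (hquo S u hu))
    have hkn := (Run7.h266.AZ.row_bound A i k hk c hli S hS).1
    rw [rank_eq] at h2
    have h3 : (H.index : ℝ) * (((S.card : ℝ) - k) * m) < S.card * k + ((S.card : ℝ) - k) * m := by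
      have := (Nat.cast_lt (α := ℝ)).2 hlt
      rw [Nat.cast_mul, Nat.cast_mul, Nat.cast_add, Nat.cast_mul, Nat.cast_mul,
        Nat.cast_sub hkn] at this
      exact this
    have hκ : (0 : ℝ) ≤ H.index := Nat.cast_nonneg _
    have hknR : (k : ℝ) ≤ S.card := by exact_mod_cast hkn
    have h4 : 0 ≤ (S.card : ℝ) * k + ((S.card : ℝ) - k) * m := by
      have h5 : (0 : ℝ) ≤ (S.card : ℝ) * k := by positivity
      have h6 : 0 ≤ ((S.card : ℝ) - k) * m := mul_nonneg (by linarith) (Nat.cast_nonneg m)
      linarith
    have h5 := mul_le_mul_of_nonneg_left h2 hκ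
    have h6 := mul_le_mul_of_nonneg_right h1 h4
    rw [one_mul] at h6
    have h7 : (H.index : ℝ) * (1 - (Fintype.card K - kerDim A))
        * ((S.card : ℝ) * k + ((S.card : ℝ) - k) * m)
        = (H.index : ℝ) * ((1 - (Fintype.card K - kerDim A))
        * ((S.card : ℝ) * k + ((S.card : ℝ) - k) * m)) := by ring
    rw [h7] at h6
    linarith
  have key2 : (∀ g : G, g ≠ 1 → ¬ IsOfFinOrder g) →
      ∀ {K L : Type} [Fintype K] [Fintype L] (A : K → L → (G →₀ ℂ)) (i : K) (k : ℕ)
      (c : Fin k → L), 0 < k → LinearIndependent ℂ (fun a => A i (c a)) → ∀ (S : Finset G),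
      (∀ a, (A i (c a)).support ⊆ S) →
      H.index * ((S.card - 1) * (S.card - k)) < S.card ^ 2 → kerDim A ≤ Fintype.card K - 1 := by
    intro htf K L _ _ A i k c hk hli S hS hlt
    by_contra hcon
    have h1 := step A hcon
    obtain ⟨hkn, h2, _⟩ := Run7.h266.AZ.row_bound A i k hk c hli S hS
    have h3 := h2 (fun u hu hf => absurd hf (htf u (hquo S u hu)))
    rw [rank_eq] at h3
    have hn1 : 1 ≤ S.card := hk.trans_le hkn
    have h4 : (H.index : ℝ) * (((S.card : ℝ) - 1) * (S.card - k)) < (S.card : ℝ) ^ 2 := by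
      have := (Nat.cast_lt (α := ℝ)).2 hlt
      rw [Nat.cast_mul, Nat.cast_mul, Nat.cast_sub hkn, Nat.cast_sub hn1, Nat.cast_pow,
        Nat.cast_one] at this
      exact this
    have hκ : (0 : ℝ) ≤ H.index := Nat.cast_nonneg _
    have h5 := mul_le_mul_of_nonneg_left h3 hκ
    have h6 := mul_le_mul_of_nonneg_right h1 (sq_nonneg (S.card : ℝ))
    rw [one_mul] at h6
    have h7 : (H.index : ℝ) * (1 - (Fintype.card K - kerDim A)) * (S.card : ℝ) ^ 2
        = (H.index : ℝ) * ((S.card : ℝ) ^ 2 * (1 - (Fintype.card K - kerDim A))) := by ring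
    rw [h7] at h6
    linarith
  have hsub : ∀ {k : ℕ} (C : Fin k → (G →₀ ℂ)) (a : Fin k), (C a).support ⊆ occur C := by
    intro k C a x hx
    exact Finset.mem_biUnion.2 ⟨a, Finset.mem_univ a, hx⟩
  refine ⟨?_, ?_, ?_⟩
  · intro K L _ _ A i k n m c hk hli hn hm hlt
    rw [hn] at hlt
    exact key1 A i k c hk hli _ (fun a => hsub (fun a => A i (c a)) a) m hm hlt
  · intro htf K L _ _ A i k n c hk hli hn hlt
    rw [hn] at hlt
    exact key2 htf A i k c hk hli _ (fun a => hsub (fun a => A i (c a)) a) hlt
  · intro h2 α h0 hcase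
    have hli : LinearIndependent ℂ (fun _ : Fin 1 => α) := by
      rw [Fintype.linearIndependent_iff]
      intro g hg a
      rw [Fin.sum_univ_one] at hg
      rcases smul_eq_zero.1 hg with h1 | h1
      · rwa [Subsingleton.elim a 0]
      · exact absurd h1 h0
    have hcard : 0 < α.support.card := (Finsupp.support_nonempty_iff.2 h0).card_pos
    have hle : kerDim (fun _ _ : Unit => α) ≤ Fintype.card Unit - 1 := by
      rcases hcase with hS | ⟨htf, h3⟩
      · refine key1 (fun _ _ : Unit => α) () 1 (fun _ => ()) one_pos hli α.support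
          (fun _ => subset_rfl) 1 hS ?_
        rw [h2]
        omega
      · refine key2 htf (fun _ _ : Unit => α) () 1 (fun _ => ()) one_pos hli α.support
          (fun _ => subset_rfl) ?_
        rw [h2]
        interval_cases h : α.support.card <;> norm_num
    rw [Fintype.card_unit, Nat.cast_one, sub_self] at hle
    refine le_antisymm hle ?_
    have h5 := Pool.Agent.W649.ZL.vd_nonneg (LinearMap.ker
      (Run7.h266.AZ.mo (fun _ _ : Unit => α) : Pool.Agent.W649.ZL.EE G Unit →ₗ[ℂ]
        Pool.Agent.W649.ZL.EE G Unit))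
    rw [← Run7.h266.AZ.kerDimM_mo] at h5
    have h6 := rank_eq (fun _ _ : Unit => α)
    rw [Run7.h266.AZ.rkM_eq] at h6
    linarith

end Pool.Agent.Results.MP_1dd539_al.FewTermsInSmallIndex
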